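import Mathlib

set_option autoImplicit false

/-!
# Reciprocal sums multiplied by the least common multiple: congruences modulo primes
-/

open Finset

namespace Pool.Agent.H15D

/-- `[1,...,N] (1 - ∑_{n ∈ A} 1/n)` -/
def tt (N : ℕ) (A : Finset ℕ) : ℤ := (Nat.lcmUpto N : ℤ) - ∑ n ∈ A, ((Nat.lcmUpto N / n : ℕ) : ℤ)

theorem dvd_lcmUpto {n N : ℕ} (hn : n ∈ Icc 1 N) : n ∣ Nat.lcmUpto N := by
  unfold Nat.lcmUpto
  exact dvd_lcm (f := id) hn

theorem tt_real {N : ℕ} {A : Finset ℕ} (hA : A ⊆ Icc 1 N) :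
    (tt N A : ℝ) = (Nat.lcmUpto N : ℝ) * (1 - ∑ n ∈ A, (1 : ℝ) / n) := by
  unfold tt
  push_cast
  rw [mul_sub, mul_one, mul_sum]
  congr 1
  refine sum_congr rfl fun n hn => ?_
  have hn1 := hA hn
  have hn0 : (n : ℝ) ≠ 0 := by
    have := (mem_Icc.1 hn1).1
    have : n ≠ 0 := by omega
    exact_mod_cast this
  have hL : (Nat.lcmUpto N : ℝ) ≠ 0 := by exact_mod_cast Nat.lcmUpto_ne_zero N
  have hd : (n : ℤ) ∣ (Nat.lcmUpto N : ℤ) := by exact_mod_cast dvd_lcmUpto hn1
  rw [Int.cast_div hd (by exact_mod_cast hn0), mul_one_div]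
  push_cast
  rfl

theorem prime_dvd_div {N n p : ℕ} (hp : p.Prime) (hpN : p ≤ N) (hn : n ∈ Icc 1 N) (h : ¬ p ∣ n) :
    p ∣ Nat.lcmUpto N / n := by
  have h1 : p ∣ Nat.lcmUpto N := dvd_lcmUpto (mem_Icc.2 ⟨hp.one_lt.le, hpN⟩)
  have h2 : n ∣ Nat.lcmUpto N := dvd_lcmUpto hn
  have h3 : Nat.Coprime n p := ((Nat.Prime.coprime_iff_not_dvd hp).2 h).symm
  have h4 : n * p ∣ Nat.lcmUpto N := h3.mul_dvd_of_dvd_of_dvd h2 h1
  obtain ⟨k, hk⟩ := h4
  have hn0 : 0 < n := (mem_Icc.1 hn).1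
  rw [hk, mul_assoc, Nat.mul_div_cancel_left _ hn0]
  exact Dvd.intro k rfl

theorem tt_congr {N p : ℕ} (hp : p.Prime) (hpN : p ≤ N) {A : Finset ℕ} (hA : A ⊆ Icc 1 N) :
    (p : ℤ) ∣ tt N A + ∑ n ∈ A.filter (fun n => p ∣ n), ((Nat.lcmUpto N / n : ℕ) : ℤ) := by
  unfold tt
  rw [← sum_filter_add_sum_filter_not A (fun n => p ∣ n)]
  have e : (Nat.lcmUpto N : ℤ) - (∑ n ∈ A.filter (fun n => p ∣ n), ((Nat.lcmUpto N / n : ℕ) : ℤ) +
      ∑ n ∈ A.filter (fun n => ¬ p ∣ n), ((Nat.lcmUpto N / n : ℕ) : ℤ)) +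
      ∑ n ∈ A.filter (fun n => p ∣ n), ((Nat.lcmUpto N / n : ℕ) : ℤ) =
      (Nat.lcmUpto N : ℤ) - ∑ n ∈ A.filter (fun n => ¬ p ∣ n), ((Nat.lcmUpto N / n : ℕ) : ℤ) := by
    ring
  rw [e]
  apply dvd_sub
  · exact_mod_cast dvd_lcmUpto (mem_Icc.2 ⟨hp.one_lt.le, hpN⟩)
  · apply dvd_sum
    intro n hn
    rw [mem_filter] at hn
    exact_mod_cast prime_dvd_div hp hpN (hA hn.1) hn.2

theorem dvd_tt_sub {N p : ℕ} (hp : p.Prime) (hpN : p ≤ N) {A B : Finset ℕ} (hA : A ⊆ Icc 1 N)
    (hB : B ⊆ Icc 1 N) (h : A.filter (fun n => p ∣ n) = B.filter (fun n => p ∣ n)) :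
    (p : ℤ) ∣ tt N A - tt N B := by
  have h1 := tt_congr hp hpN hA
  have h2 := tt_congr hp hpN hB
  rw [h] at h1
  have := dvd_sub h1 h2
  simpa using this

theorem dvd_tt {N p : ℕ} (hp : p.Prime) (hpN : p ≤ N) {A : Finset ℕ} (hA : A ⊆ Icc 1 N)
    (h : A.filter (fun n => p ∣ n) = ∅) : (p : ℤ) ∣ tt N A := by
  have h1 := tt_congr hp hpN hA
  rw [h, sum_empty, add_zero] at h1
  exact h1

/-- the primes in `(N/2, N]` -/
def bigP (N : ℕ) : Finset ℕ := (Ioc (N / 2) N).filter Nat.Prime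

theorem bigP_dvd {N : ℕ} {A B : Finset ℕ} (hA : A ⊆ Icc 1 N) (hB : B ⊆ Icc 1 N) :
    ((∏ p ∈ bigP N, p : ℕ) : ℤ) ∣ tt N A * tt N B * (tt N A - tt N B) := by
  push_cast
  apply Finset.prod_dvd_of_coprime
  · intro p hp q hq hpq
    have hp' := (mem_filter.1 hp).2
    have hq' := (mem_filter.1 hq).2
    have := (Nat.coprime_primes hp' hq').2 hpq
    simpa [Function.onFun] using Nat.isCoprime_iff_coprime.2 this
  · intro p hp
    unfold bigP at hp
    rw [mem_filter, mem_Ioc] at hp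
    obtain ⟨⟨h1, h2⟩, hpp⟩ := hp
    have key : ∀ C : Finset ℕ, C ⊆ Icc 1 N → C.filter (fun n => p ∣ n) = ∅ ∨
        C.filter (fun n => p ∣ n) = {p} := by
      intro C hC
      have hsub : C.filter (fun n => p ∣ n) ⊆ {p} := by
        intro n hn
        rw [mem_filter] at hn
        rw [mem_singleton]
        obtain ⟨hn1, k, rfl⟩ := hn
        have := mem_Icc.1 (hC hn1)
        have hk : k = 1 := by
          rcases Nat.lt_or_ge k 2 with hk | hk
          · interval_cases k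
            · simp at this
            · rfl
          · exfalso
            have h3 : p * 2 ≤ p * k := Nat.mul_le_mul_left p hk
            omega
        rw [hk, mul_one]
      exact subset_singleton_iff.1 hsub
    rcases key A hA with h | h
    · exact Dvd.dvd.mul_right (Dvd.dvd.mul_right (dvd_tt hpp h2 hA h) _) _
    · rcases key B hB with h' | h'
      · exact Dvd.dvd.mul_right (Dvd.dvd.mul_left (dvd_tt hpp h2 hB h') _) _
      · exact Dvd.dvd.mul_left (dvd_tt_sub hpp h2 hA hB (h.trans h'.symm)) _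

/-- the number of ordered pairs of distinct indices whose sets agree on the multiples of `p` -/
def EE {K : ℕ} (A : Fin K → Finset ℕ) (p : ℕ) : ℕ :=
  ((univ : Finset (Fin K × Fin K)).filter fun q => q.1 ≠ q.2 ∧
    (A q.1).filter (fun n => p ∣ n) = (A q.2).filter (fun n => p ∣ n)).card

theorem pow_dvd_prod {K N p : ℕ} (hp : p.Prime) (hpN : p ≤ N) (A : Fin K → Finset ℕ)
    (hA : ∀ i, A i ⊆ Icc 1 N) :
    (p : ℤ) ^ EE A p ∣ ∏ q ∈ (univ : Finset (Fin K × Fin K)).filter (fun q => q.1 ≠ q.2),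
      (tt N (A q.1) - tt N (A q.2)) := by
  have h1 : (univ : Finset (Fin K × Fin K)).filter (fun q => q.1 ≠ q.2 ∧
    (A q.1).filter (fun n => p ∣ n) = (A q.2).filter (fun n => p ∣ n)) ⊆
      (univ : Finset (Fin K × Fin K)).filter (fun q => q.1 ≠ q.2) := by
    intro q hq
    rw [mem_filter] at hq ⊢
    exact ⟨hq.1, hq.2.1⟩
  refine Dvd.dvd.trans ?_ (prod_dvd_prod_of_subset _ _ _ h1)
  unfold EE
  rw [← prod_const]
  apply prod_dvd_prod_of_dvd
  intro q hq
  rw [mem_filter] at hq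
  exact dvd_tt_sub hp hpN (hA _) (hA _) hq.2.2

theorem prod_pow_dvd {K N : ℕ} (A : Fin K → Finset ℕ) (hA : ∀ i, A i ⊆ Icc 1 N) :
    ((∏ p ∈ (Ioc 0 N).filter Nat.Prime, p ^ EE A p : ℕ) : ℤ) ∣
      ∏ q ∈ (univ : Finset (Fin K × Fin K)).filter (fun q => q.1 ≠ q.2),
      (tt N (A q.1) - tt N (A q.2)) := by
  push_cast
  apply Finset.prod_dvd_of_coprime
  · intro p hp q hq hpq
    have hp' := (mem_filter.1 hp).2
    have hq' := (mem_filter.1 hq).2
    have := (Nat.coprime_primes hp' hq').2 hpq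
    have h2 : IsCoprime (p : ℤ) (q : ℤ) := Nat.isCoprime_iff_coprime.2 this
    exact h2.pow
  · intro p hp
    rw [mem_filter, mem_Ioc] at hp
    exact pow_dvd_prod hp.2 hp.1.2 A hA

/-- pigeonhole: `2^k` possible traces for primes in `(N/(k+1), N/k]` -/
theorem EE_ge {K N p k : ℕ} (hp : 0 < p) (hk : N / p ≤ k) (A : Fin K → Finset ℕ)
    (hA : ∀ i, A i ⊆ Icc 1 N) :
    (K : ℝ) ^ 2 / 2 ^ k - K ≤ EE A p := by
  classical
  -- all pairs with equal traces
  set col : Fin K → Finset ℕ := fun i => (A i).filter (fun n => p ∣ n) with hcol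
  set S : Finset ℕ := (Icc 1 k).image (fun j => p * j) with hS
  have hcolS : ∀ i, col i ∈ S.powerset := by
    intro i
    rw [mem_powerset]
    intro n hn
    rw [hcol, mem_filter] at hn
    obtain ⟨hn1, j, rfl⟩ := hn
    have := mem_Icc.1 (hA i hn1)
    rw [hS, mem_image]
    refine ⟨j, ?_, rfl⟩
    rw [mem_Icc]
    constructor
    · exact Nat.pos_of_mul_pos_left (by omega : 0 < p * j)
    · have : j ≤ N / p := by
        rw [Nat.le_div_iff_mul_le hp]
        linarith
      omega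
  have hcard : (S.powerset).card ≤ 2 ^ k := by
    rw [card_powerset]
    apply Nat.pow_le_pow_right (by norm_num)
    refine card_image_le.trans ?_
    simp
  have h1 : (K : ℝ) ^ 2 ≤ (S.powerset).card *
      ∑ T ∈ S.powerset, ((univ.filter fun i => col i = T).card : ℝ) ^ 2 := by
    have e : (K : ℝ) = ∑ T ∈ S.powerset, ((univ.filter fun i => col i = T).card : ℝ) := by
      have := card_eq_sum_card_fiberwise (s := (univ : Finset (Fin K))) (t := S.powerset) (f := col)
        (fun i _ => by simpa using hcolS i)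
      rw [card_univ, Fintype.card_fin] at this
      exact_mod_cast this
    rw [e]
    exact sq_sum_le_card_mul_sum_sq
  have h2 : (∑ T ∈ S.powerset, ((univ.filter fun i => col i = T).card : ℝ) ^ 2) =
      (((univ : Finset (Fin K × Fin K)).filter fun q => col q.1 = col q.2).card : ℝ) := by
    have : ((univ : Finset (Fin K × Fin K)).filter fun q => col q.1 = col q.2).card =
        ∑ T ∈ S.powerset, (univ.filter fun i => col i = T).card ^ 2 := by
      rw [card_eq_sum_card_fiberwise (t := S.powerset) (f := fun q : Fin K × Fin K => col q.1)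
        (fun q _ => by simpa using hcolS q.1)]
      refine sum_congr rfl fun T _ => ?_
      rw [sq, ← card_product]
      congr 1
      ext q
      simp only [mem_filter, mem_product, mem_univ, true_and]
      constructor
      · rintro ⟨h1, h2⟩
        exact ⟨h2, h1 ▸ h2⟩
      · rintro ⟨h1, h2⟩
        exact ⟨h1.trans h2.symm, h1⟩
    rw [this]
    push_cast
    rfl
  have h3 : ((univ : Finset (Fin K × Fin K)).filter fun q => col q.1 = col q.2).card ≤ EE A p + K := by
    have : (univ : Finset (Fin K × Fin K)).filter (fun q => col q.1 = col q.2) ⊆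
        ((univ : Finset (Fin K × Fin K)).filter fun q => q.1 ≠ q.2 ∧
          (A q.1).filter (fun n => p ∣ n) = (A q.2).filter (fun n => p ∣ n)) ∪
        (univ : Finset (Fin K)).image (fun i => (i, i)) := by
      intro q hq
      rw [mem_filter] at hq
      rw [mem_union, mem_filter, mem_image]
      by_cases h : q.1 = q.2
      · right
        exact ⟨q.1, mem_univ _, Prod.ext rfl h⟩
      · left
        exact ⟨mem_univ _, h, hq.2⟩
    refine (card_le_card this).trans ((card_union_le _ _).trans ?_)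
    unfold EE
    have : ((univ : Finset (Fin K)).image (fun i => (i, i))).card ≤ K := by
      refine card_image_le.trans ?_
      simp
    omega
  rw [h2] at h1
  have h4 : (((univ : Finset (Fin K × Fin K)).filter fun q => col q.1 = col q.2).card : ℝ) ≤
      (EE A p : ℝ) + K := by exact_mod_cast h3
  have h5 : ((S.powerset).card : ℝ) ≤ 2 ^ k := by exact_mod_cast hcard
  have h6 : (K : ℝ) ^ 2 ≤ 2 ^ k * ((EE A p : ℝ) + K) := by
    refine h1.trans ?_
    gcongr
  have h7 : (K : ℝ) ^ 2 / 2 ^ k ≤ (EE A p : ℝ) + K := by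
    rw [div_le_iff₀ (by positivity)]
    linarith
  linarith

end Pool.Agent.H15D
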