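import Pool.Agent.PNTheta.Main
import Pool.Agent.H15D.Basic

set_option autoImplicit false

/-!
# Lower bounds for a positive non-increasing sequence of values `|1 - ∑_{n ∈ A} 1/n|`, `A ⊆ [1, N]`
-/

open Finset Filter Topology

namespace Pool.Agent.H15D

/-- `d N > 0` is the distance of `1` to a reciprocal sum over a subset of `{1,...,N}`, and `d` is
non-increasing. -/
structure Dist (d : ℕ → ℝ) : Prop where
  pos : ∀ N, 0 < d N
  att : ∀ N, ∃ A ⊆ Icc 1 N, d N = |1 - ∑ n ∈ A, (1 : ℝ) / n|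
  anti : Antitone d

theorem lcm_pos (N : ℕ) : (0 : ℝ) < Nat.lcmUpto N := by exact_mod_cast Nat.lcmUpto_pos N

theorem log_lcm (N : ℕ) : Real.log (Nat.lcmUpto N) = Chebyshev.psi N :=
  (Chebyshev.psi_eq_log_lcmUpto N).symm

/-! ### sums of logarithms of primes -/

theorem theta_nat (N : ℕ) : Chebyshev.theta N = ∑ p ∈ (Ioc 0 N).filter Nat.Prime, Real.log p := by
  unfold Chebyshev.theta
  rw [Nat.floor_natCast]

theorem sum_log_Ioc {a b : ℕ} (h : a ≤ b) :
    ∑ p ∈ (Ioc a b).filter Nat.Prime, Real.log p = Chebyshev.theta b - Chebyshev.theta a := by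
  rw [theta_nat, theta_nat]
  have e : (Ioc 0 b).filter Nat.Prime = (Ioc 0 a).filter Nat.Prime ∪ (Ioc a b).filter Nat.Prime := by
    rw [← filter_union]
    congr 1
    ext x; simp only [mem_union, mem_Ioc]; omega
  have hd : Disjoint ((Ioc 0 a).filter Nat.Prime) ((Ioc a b).filter Nat.Prime) := by
    rw [Finset.disjoint_left]
    intro x h1 h2
    rw [mem_filter, mem_Ioc] at h1 h2
    omega
  rw [e, sum_union hd]
  ring

theorem log_prod_bigP (N : ℕ) : Real.log ((∏ p ∈ bigP N, p : ℕ) : ℝ) =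
    Chebyshev.theta N - Chebyshev.theta ((N / 2 : ℕ) : ℝ) := by
  rw [← sum_log_Ioc (Nat.div_le_self N 2)]
  push_cast
  rw [Real.log_prod]
  · rfl
  · intro p hp
    have := (mem_filter.1 hp).2.pos
    have : p ≠ 0 := by omega
    exact_mod_cast this

theorem theta_div_tendsto (k : ℕ) (hk : 1 ≤ k) :
    Tendsto (fun N : ℕ => Chebyshev.theta ((N / k : ℕ) : ℝ) / N) atTop (𝓝 (1 / k)) := by
  have hk0 : (0 : ℝ) < k := by exact_mod_cast hk
  have h1 : Tendsto (fun N : ℕ => (N : ℝ) / k) atTop atTop :=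
    (tendsto_natCast_atTop_atTop).atTop_div_const hk0
  have h2 := (PNTheta.theta_tendsto.comp h1).mul_const (1 / (k : ℝ))
  rw [one_mul] at h2
  refine h2.congr' ?_
  filter_upwards [eventually_gt_atTop 0] with N hN
  have hN0 : (0 : ℝ) < N := by exact_mod_cast hN
  simp only [Function.comp]
  have h3 : Chebyshev.theta ((N : ℝ) / k) = Chebyshev.theta ((N / k : ℕ) : ℝ) := by
    rw [Chebyshev.theta_eq_theta_coe_floor, Nat.floor_div_natCast, Nat.floor_natCast]
  rw [h3]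
  field_simp

theorem psi_nat_tendsto : Tendsto (fun N : ℕ => Chebyshev.psi N / N) atTop (𝓝 1) :=
  PNTheta.psi_tendsto.comp tendsto_natCast_atTop_atTop

theorem abs_tt {N : ℕ} {A : Finset ℕ} (hA : A ⊆ Icc 1 N) :
    |(tt N A : ℝ)| = (Nat.lcmUpto N : ℝ) * |1 - ∑ n ∈ A, (1 : ℝ) / n| := by
  rw [tt_real hA, abs_mul, abs_of_pos (lcm_pos N)]

variable {d : ℕ → ℝ}

/-- The inequality at a jump. -/
theorem jump (hd : Dist d) {N : ℕ} (hN : 1 ≤ N) (h : d N < d (N - 1)) :
    Chebyshev.theta N - Chebyshev.theta ((N / 2 : ℕ) : ℝ) ≤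
      3 * Chebyshev.psi N + Real.log 2 + (Real.log (d N) + 2 * Real.log (d (N - 1))) := by
  obtain ⟨A, hA, hA'⟩ := hd.att (N - 1)
  obtain ⟨B, hB, hB'⟩ := hd.att N
  have hA1 : A ⊆ Icc 1 N := hA.trans (Icc_subset_Icc le_rfl (Nat.sub_le N 1))
  have hL := lcm_pos N
  have ha : |(tt N A : ℝ)| = Nat.lcmUpto N * d (N - 1) := by rw [abs_tt hA1, hA']
  have hb : |(tt N B : ℝ)| = Nat.lcmUpto N * d N := by rw [abs_tt hB, hB']
  have hp1 := hd.pos (N - 1)
  have hp2 := hd.pos N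
  have hlt : |(tt N B : ℝ)| < |(tt N A : ℝ)| := by
    rw [ha, hb]
    exact mul_lt_mul_of_pos_left h hL
  have hb0 : 0 < |(tt N B : ℝ)| := by rw [hb]; positivity
  have ha0 : 0 < |(tt N A : ℝ)| := hb0.trans hlt
  have hsub : 0 < |(tt N A : ℝ) - tt N B| := by
    rw [abs_pos, sub_ne_zero]
    intro h0
    rw [h0] at hlt
    exact lt_irrefl _ hlt
  have hsub2 : |(tt N A : ℝ) - tt N B| ≤ 2 * (Nat.lcmUpto N * d (N - 1)) := by
    have := abs_sub (tt N A : ℝ) (tt N B)
    linarith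
  have hdvd := bigP_dvd hA1 hB
  have hne : tt N A * tt N B * (tt N A - tt N B) ≠ 0 := by
    intro h0
    have : |((tt N A * tt N B * (tt N A - tt N B) : ℤ) : ℝ)| = 0 := by rw [h0]; simp
    push_cast at this
    rw [abs_mul, abs_mul] at this
    have := mul_pos (mul_pos ha0 hb0) hsub
    linarith
  have hle := Int.le_of_dvd (abs_pos.2 hne) ((dvd_abs _ _).2 hdvd)
  have hle' : ((∏ p ∈ bigP N, p : ℕ) : ℝ) ≤ |(tt N A : ℝ)| * |(tt N B : ℝ)| * |(tt N A : ℝ) - tt N B| := by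
    have : (((∏ p ∈ bigP N, p : ℕ) : ℤ) : ℝ) ≤ ((|tt N A * tt N B * (tt N A - tt N B)| : ℤ) : ℝ) := by
      exact_mod_cast hle
    push_cast at this ⊢
    rw [abs_mul, abs_mul] at this
    exact this
  have hprod : (0 : ℝ) < ((∏ p ∈ bigP N, p : ℕ) : ℝ) := by
    have : 0 < ∏ p ∈ bigP N, p := by
      apply prod_pos
      intro p hp
      exact (mem_filter.1 hp).2.pos
    exact_mod_cast this
  rw [← log_prod_bigP]
  have h1 : ((∏ p ∈ bigP N, p : ℕ) : ℝ) ≤
      (Nat.lcmUpto N * d (N - 1)) * (Nat.lcmUpto N * d N) * (2 * (Nat.lcmUpto N * d (N - 1))) := by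
    refine hle'.trans ?_
    rw [ha, hb]
    gcongr
  have h2 := Real.log_le_log hprod h1
  refine h2.trans (le_of_eq ?_)
  have hL' := hL.ne'
  rw [Real.log_mul (by positivity) (by positivity), Real.log_mul (by positivity) (by positivity),
    Real.log_mul hL' hp1.ne', Real.log_mul hL' hp2.ne', Real.log_mul (by norm_num) (by positivity),
    Real.log_mul hL' hp1.ne', log_lcm]
  ring

theorem jump_eventually (hd : Dist d) (ε : ℝ) (hε : 0 < ε) : ∀ᶠ N : ℕ in atTop,
    d N < d (N - 1) → Real.exp (-((5 / 2 + ε) * N)) ≤ d N * d (N - 1) ^ 2 := by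
  have h1 := theta_div_tendsto 1 le_rfl
  have h2 := theta_div_tendsto 2 (by norm_num)
  have h3 := psi_nat_tendsto
  have h4 : Tendsto (fun N : ℕ => Real.log 2 / (N : ℝ)) atTop (𝓝 0) :=
    tendsto_const_nhds.div_atTop tendsto_natCast_atTop_atTop
  have h5 := ((h1.sub h2).sub ((h3.const_mul 3).add h4))
  have e : (1 / ((1 : ℕ) : ℝ) - 1 / ((2 : ℕ) : ℝ) - (3 * 1 + 0)) = -(5 / 2) := by norm_num
  rw [e] at h5
  filter_upwards [h5.eventually (lt_mem_nhds (show -(5 / 2 + ε) < -(5 / 2) by linarith)),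
    eventually_ge_atTop 1] with N hN hN1 hj
  have hN0 : (0 : ℝ) < N := by exact_mod_cast hN1
  have h6 := jump hd hN1 hj
  rw [Nat.div_one] at hN
  have h7 : -(5 / 2 + ε) * N ≤ Chebyshev.theta N - Chebyshev.theta ((N / 2 : ℕ) : ℝ) -
      (3 * Chebyshev.psi N + Real.log 2) := by
    have : Chebyshev.theta N / (N : ℝ) - Chebyshev.theta ((N / 2 : ℕ) : ℝ) / N -
        (3 * (Chebyshev.psi N / N) + Real.log 2 / N) =
        (Chebyshev.theta N - Chebyshev.theta ((N / 2 : ℕ) : ℝ) -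
          (3 * Chebyshev.psi N + Real.log 2)) / N := by
      field_simp
    rw [this, lt_div_iff₀ hN0] at hN
    linarith
  have hp1 := hd.pos (N - 1)
  have hp2 := hd.pos N
  have h8 : d N * d (N - 1) ^ 2 = Real.exp (Real.log (d N) + 2 * Real.log (d (N - 1))) := by
    rw [Real.exp_add, Real.exp_log hp2]
    congr 1
    rw [two_mul, Real.exp_add, Real.exp_log hp1, sq]
  rw [h8]
  apply Real.exp_le_exp.2
  linarith

theorem often (hd : Dist d) (ε : ℝ) (hε : 0 < ε) : ∃ᶠ N : ℕ in atTop,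
    Real.exp (-((5 / 6 + ε) * N)) ≤ d N := by
  by_cases hj : ∃ᶠ N : ℕ in atTop, d N < d (N - 1)
  · -- infinitely many jumps
    have h1 := hj.and_eventually (((jump_eventually hd ε hε).and
      (eventually_ge_atTop (Nat.ceil ((5 / 6 + ε) / (2 * ε / 3)) + 2))))
    rw [frequently_atTop] at h1 ⊢
    intro a
    obtain ⟨N, hNa, hjN, h2, h3⟩ := h1 (a + 1)
    refine ⟨N - 1, by omega, ?_⟩
    have h4 := h2 hjN
    have hp1 := hd.pos (N - 1)
    have hp2 := hd.pos N
    have h5 : d N * d (N - 1) ^ 2 ≤ d (N - 1) ^ 3 := by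
      calc d N * d (N - 1) ^ 2 ≤ d (N - 1) * d (N - 1) ^ 2 := by gcongr
        _ = d (N - 1) ^ 3 := by ring
    have h6 : Real.exp (-((5 / 6 + ε / 3) * N)) ^ 3 ≤ d (N - 1) ^ 3 := by
      rw [← Real.exp_nat_mul]
      refine le_trans (le_of_eq ?_) (h4.trans h5)
      congr 1
      push_cast
      ring
    have h7 : Real.exp (-((5 / 6 + ε / 3) * N)) ≤ d (N - 1) :=
      le_of_pow_le_pow_left₀ (by norm_num) hp1.le h6
    refine le_trans (Real.exp_le_exp.2 ?_) h7
    have h8 : ((N - 1 : ℕ) : ℝ) = N - 1 := by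
      rw [Nat.cast_sub (by omega)]
      norm_num
    rw [h8]
    have h9 : (5 / 6 + ε) / (2 * ε / 3) ≤ N := by
      refine (Nat.le_ceil _).trans ?_
      exact_mod_cast (by omega : ⌈(5 / 6 + ε) / (2 * ε / 3)⌉₊ ≤ N)
    rw [div_le_iff₀ (by positivity)] at h9
    linarith
  · -- eventually constant
    rw [not_frequently] at hj
    obtain ⟨a, ha⟩ := eventually_atTop.1 hj
    have hconst : ∀ N, a ≤ N → d a ≤ d N := by
      intro N hN
      induction N, hN using Nat.le_induction with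
      | base => exact le_rfl
      | succ n hn ih =>
        have := ha (n + 1) (by omega)
        rw [Nat.add_sub_cancel, not_lt] at this
        exact ih.trans this
    apply Eventually.frequently
    have h1 : Tendsto (fun N : ℕ => Real.exp (-((5 / 6 + ε) * N))) atTop (𝓝 0) := by
      apply Real.tendsto_exp_neg_atTop_nhds_zero.comp
      exact (tendsto_natCast_atTop_atTop).const_mul_atTop (by positivity)
    filter_upwards [h1.eventually (gt_mem_nhds (hd.pos a)), eventually_ge_atTop a] with N h2 h3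
    exact h2.le.trans (hconst N h3)

/-! ### many sets at one scale -/

theorem finite_ineq (hd : Dist d) {K M N : ℕ} (k0 : ℕ) (Ns : Fin K → ℕ)
    (h1 : ∀ i, M ≤ Ns i) (h2 : ∀ i, Ns i ≤ N) (hMN : M ≤ N)
    (hinj : ∀ i j, i ≠ j → d (Ns i) ≠ d (Ns j)) :
    ∑ k ∈ Icc 1 k0, ((K : ℝ) ^ 2 / 2 ^ k - K) *
      (Chebyshev.theta ((N / k : ℕ) : ℝ) - Chebyshev.theta ((N / (k + 1) : ℕ) : ℝ)) ≤
      (K : ℝ) ^ 2 * (Real.log 2 + Chebyshev.psi N + Real.log (d M)) := by
  choose A hA hA' using fun i => hd.att (Ns i)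
  have hAN : ∀ i, A i ⊆ Icc 1 N := fun i => (hA i).trans (Icc_subset_Icc le_rfl (h2 i))
  have hL := lcm_pos N
  set T : ℝ := Nat.lcmUpto N * d M with hT
  have hdM := hd.pos M
  -- `T ≥ 1`
  have hT1 : 1 ≤ T := by
    obtain ⟨B, hB, hB'⟩ := hd.att M
    have hBN : B ⊆ Icc 1 N := hB.trans (Icc_subset_Icc le_rfl hMN)
    have h3 : |(tt N B : ℝ)| = T := by rw [abs_tt hBN, ← hB']
    have h4 : tt N B ≠ 0 := by
      intro h0
      rw [h0, Int.cast_zero, abs_zero] at h3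
      have : 0 < T := by positivity
      linarith
    have h5 := Int.one_le_abs h4
    rw [← h3]
    exact_mod_cast h5
  have habs : ∀ i, |(tt N (A i) : ℝ)| = Nat.lcmUpto N * d (Ns i) := by
    intro i
    rw [abs_tt (hAN i), ← hA' i]
  have hle : ∀ i, |(tt N (A i) : ℝ)| ≤ T := by
    intro i
    rw [habs i, hT]
    have := hd.anti (h1 i)
    gcongr
  have hne : ∀ i j, i ≠ j → (tt N (A i) : ℝ) - tt N (A j) ≠ 0 := by
    intro i j hij h0
    have h3 : (tt N (A i) : ℝ) = tt N (A j) := by linarith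
    have h4 := habs i
    rw [h3, habs j] at h4
    exact hinj i j hij (mul_left_cancel₀ hL.ne' h4).symm
  -- the product
  set P := (univ : Finset (Fin K × Fin K)).filter (fun q => q.1 ≠ q.2) with hP
  have hQ0 : ∏ q ∈ P, (tt N (A q.1) - tt N (A q.2)) ≠ 0 := by
    rw [prod_ne_zero_iff]
    intro q hq h0
    have := hne q.1 q.2 (mem_filter.1 hq).2
    apply this
    exact_mod_cast h0
  have hdvd := prod_pow_dvd A hAN
  have h3 := Int.le_of_dvd (abs_pos.2 hQ0) ((dvd_abs _ _).2 hdvd)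
  have h4 : ((∏ p ∈ (Ioc 0 N).filter Nat.Prime, p ^ EE A p : ℕ) : ℝ) ≤
      ∏ q ∈ P, |(tt N (A q.1) : ℝ) - tt N (A q.2)| := by
    have : (((∏ p ∈ (Ioc 0 N).filter Nat.Prime, p ^ EE A p : ℕ) : ℤ) : ℝ) ≤
      ((|∏ q ∈ P, (tt N (A q.1) - tt N (A q.2))| : ℤ) : ℝ) := by exact_mod_cast h3
    push_cast at this ⊢
    rw [abs_prod] at this
    exact this
  have h5 : ∏ q ∈ P, |(tt N (A q.1) : ℝ) - tt N (A q.2)| ≤ (2 * T) ^ (K ^ 2) := by
    have h6 : ∏ q ∈ P, |(tt N (A q.1) : ℝ) - tt N (A q.2)| ≤ ∏ q ∈ P, (2 * T) := by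
      refine prod_le_prod (fun _ _ => abs_nonneg _) fun q _ => ?_
      have h7 := abs_sub (tt N (A q.1) : ℝ) (tt N (A q.2))
      have h8 := hle q.1
      have h9 := hle q.2
      linarith
    refine h6.trans ?_
    rw [prod_const]
    apply pow_le_pow_right₀ (by linarith)
    have : P.card ≤ (univ : Finset (Fin K × Fin K)).card := card_filter_le _ _
    rw [card_univ, Fintype.card_prod, Fintype.card_fin] at this
    rw [sq]
    exact this
  have h6 : Real.log ((∏ p ∈ (Ioc 0 N).filter Nat.Prime, p ^ EE A p : ℕ) : ℝ) ≤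
      (K : ℝ) ^ 2 * (Real.log 2 + Chebyshev.psi N + Real.log (d M)) := by
    have hpos : (0 : ℝ) < ((∏ p ∈ (Ioc 0 N).filter Nat.Prime, p ^ EE A p : ℕ) : ℝ) := by
      have : 0 < ∏ p ∈ (Ioc 0 N).filter Nat.Prime, p ^ EE A p := by
        apply prod_pos
        intro p hp
        exact pow_pos (mem_filter.1 hp).2.pos _
      exact_mod_cast this
    refine (Real.log_le_log hpos (h4.trans h5)).trans (le_of_eq ?_)
    rw [Real.log_pow, Real.log_mul (by norm_num) (by positivity), hT,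
      Real.log_mul hL.ne' hdM.ne', log_lcm]
    push_cast
    ring
  refine le_trans ?_ h6
  -- lower bound
  have h7 : Real.log ((∏ p ∈ (Ioc 0 N).filter Nat.Prime, p ^ EE A p : ℕ) : ℝ) =
      ∑ p ∈ (Ioc 0 N).filter Nat.Prime, (EE A p : ℝ) * Real.log p := by
    push_cast
    rw [Real.log_prod]
    · refine sum_congr rfl fun p _ => ?_
      rw [Real.log_pow]
    · intro p hp
      have := (mem_filter.1 hp).2.pos
      have : (p : ℝ) ≠ 0 := by
        have : p ≠ 0 := by omega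
        exact_mod_cast this
      exact pow_ne_zero _ this
  rw [h7]
  set S : ℕ → Finset ℕ := fun k => (Ioc (N / (k + 1)) (N / k)).filter Nat.Prime with hS
  have hterm : ∀ k ∈ Icc 1 k0, ((K : ℝ) ^ 2 / 2 ^ k - K) *
      (Chebyshev.theta ((N / k : ℕ) : ℝ) - Chebyshev.theta ((N / (k + 1) : ℕ) : ℝ)) ≤
      ∑ p ∈ S k, (EE A p : ℝ) * Real.log p := by
    intro k hk
    rw [mem_Icc] at hk
    rw [← sum_log_Ioc (Nat.div_le_div_left (Nat.le_succ k) (by omega)), mul_sum]
    refine sum_le_sum fun p hp => ?_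
    rw [mem_filter, mem_Ioc] at hp
    have hp0 : 0 < p := hp.2.pos
    refine mul_le_mul_of_nonneg_right (EE_ge hp0 ?_ A hAN) (Real.log_natCast_nonneg p)
    have : N < p * (k + 1) := by
      have h8 := Nat.lt_mul_div_succ N (show 0 < k + 1 by omega)
      have h9 : (k + 1) * (N / (k + 1) + 1) ≤ (k + 1) * p := Nat.mul_le_mul_left _ hp.1.1
      have h10 : (k + 1) * p = p * (k + 1) := mul_comm _ _
      omega
    rw [Nat.div_le_iff_le_mul_add_pred hp0]
    have h11 : p * (k + 1) = p * k + p := by ring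
    omega
  refine (sum_le_sum hterm).trans ?_
  rw [← sum_biUnion]
  · apply sum_le_sum_of_subset_of_nonneg
    · intro p hp
      rw [mem_biUnion] at hp
      obtain ⟨k, hk, hp⟩ := hp
      rw [hS, mem_filter, mem_Ioc] at hp
      rw [mem_filter, mem_Ioc]
      have := Nat.div_le_self N k
      exact ⟨⟨hp.2.pos, by omega⟩, hp.2⟩
    · intro p _ _
      exact mul_nonneg (by positivity) (Real.log_natCast_nonneg p)
  · intro k hk l hl hkl
    have hk' := mem_Icc.1 (mem_coe.1 hk)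
    have hl' := mem_Icc.1 (mem_coe.1 hl)
    simp only [Function.onFun]
    rw [Finset.disjoint_left]
    intro p hp1 hp2
    rw [hS, mem_filter, mem_Ioc] at hp1 hp2
    rcases Nat.lt_or_gt_of_ne hkl with h | h
    · have : N / l ≤ N / (k + 1) := Nat.div_le_div_left h (by omega)
      omega
    · have : N / k ≤ N / (l + 1) := Nat.div_le_div_left h (by omega)
      omega

theorem scaled_tendsto {f : ℕ → ℝ} {c : ℝ} (h : Tendsto (fun N : ℕ => f N / N) atTop (𝓝 c))
    (a : ℕ) (ha : 1 ≤ a) : Tendsto (fun m : ℕ => f (a * m) / m) atTop (𝓝 (c * a)) := by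
  have h1 : Tendsto (fun m : ℕ => a * m) atTop atTop :=
    tendsto_id.const_mul_atTop' (by omega)
  have h2 := (h.comp h1).mul_const (a : ℝ)
  refine h2.congr' ?_
  filter_upwards [eventually_gt_atTop 0] with m hm
  have hm0 : (0 : ℝ) < m := by exact_mod_cast hm
  have ha0 : (0 : ℝ) < a := by exact_mod_cast ha
  simp only [Function.comp]
  push_cast
  field_simp

theorem limit_ineq (hd : Dist d) {c : ℝ} (hc : 0 < c)
    (h : Tendsto (fun N : ℕ => -Real.log (d N) / N) atTop (𝓝 c)) (J K k0 : ℕ) (hJ : 1 ≤ J)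
    (hK : 1 ≤ K) :
    ∑ k ∈ Icc 1 k0, ((1 : ℝ) / 2 ^ k - 1 / K) * (1 / k - 1 / (k + 1)) ≤ 1 - c * J / (J + K) := by
  have hK0 : (0 : ℝ) < K := by exact_mod_cast hK
  have hJ0 : (0 : ℝ) < J := by exact_mod_cast hJ
  -- the inequality for large `m`
  have hdist : ∀ᶠ m : ℕ in atTop, ∀ i j : Fin K, i ≠ j → d ((J + i) * m) ≠ d ((J + j) * m) := by
    rw [eventually_all]
    intro i
    rw [eventually_all]
    intro j
    rcases eq_or_ne i j with hij | hij
    · exact Eventually.of_forall fun m h0 => absurd hij h0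
    have h1 := scaled_tendsto h (J + i) (by omega)
    have h2 := scaled_tendsto h (J + j) (by omega)
    have h3 := h1.sub h2
    have h4 : c * ((J + i : ℕ) : ℝ) - c * ((J + j : ℕ) : ℝ) ≠ 0 := by
      rw [sub_ne_zero]
      intro h5
      have h6 := mul_left_cancel₀ hc.ne' h5
      have h7 : J + (i : ℕ) = J + (j : ℕ) := by exact_mod_cast h6
      exact hij (Fin.ext (by omega))
    have h5 := h3.eventually_ne h4
    filter_upwards [h5] with m hm _ h6
    apply hm
    rw [h6]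
    ring
  have hfin : ∀ᶠ m : ℕ in atTop,
      (∑ k ∈ Icc 1 k0, ((K : ℝ) ^ 2 / 2 ^ k - K) *
        (Chebyshev.theta (((J + K) * m / k : ℕ) : ℝ) - Chebyshev.theta (((J + K) * m / (k + 1) : ℕ) : ℝ))) / (m : ℝ) ≤
      ((K : ℝ) ^ 2 * (Real.log 2 + Chebyshev.psi (((J + K) * m : ℕ) : ℝ) + Real.log (d (J * m)))) / (m : ℝ) := by
    filter_upwards [hdist, eventually_gt_atTop 0] with m hm hm0
    have := finite_ineq hd (M := J * m) (N := (J + K) * m) k0 (fun i : Fin K => (J + i) * m)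
      (fun i => Nat.mul_le_mul_right m (by omega)) (fun i => Nat.mul_le_mul_right m (by omega))
      (Nat.mul_le_mul_right m (by omega)) hm
    gcongr
  -- limits
  have hl : Tendsto (fun m : ℕ => (∑ k ∈ Icc 1 k0, ((K : ℝ) ^ 2 / 2 ^ k - K) *
        (Chebyshev.theta (((J + K) * m / k : ℕ) : ℝ) - Chebyshev.theta (((J + K) * m / (k + 1) : ℕ) : ℝ))) / (m : ℝ))
      atTop (𝓝 (∑ k ∈ Icc 1 k0, ((K : ℝ) ^ 2 / 2 ^ k - K) *
        (1 / (k : ℝ) * ((J + K : ℕ) : ℝ) - 1 / ((k + 1 : ℕ) : ℝ) * ((J + K : ℕ) : ℝ)))) := by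
    have e : ∀ m : ℕ, (∑ k ∈ Icc 1 k0, ((K : ℝ) ^ 2 / 2 ^ k - K) *
        (Chebyshev.theta (((J + K) * m / k : ℕ) : ℝ) - Chebyshev.theta (((J + K) * m / (k + 1) : ℕ) : ℝ))) / (m : ℝ) =
        ∑ k ∈ Icc 1 k0, ((K : ℝ) ^ 2 / 2 ^ k - K) *
        (Chebyshev.theta (((J + K) * m / k : ℕ) : ℝ) / (m : ℝ) -
          Chebyshev.theta (((J + K) * m / (k + 1) : ℕ) : ℝ) / (m : ℝ)) := by
      intro m
      rw [sum_div]
      refine sum_congr rfl fun k _ => ?_
      ring
    simp_rw [e]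
    apply tendsto_finsetSum
    intro k hk
    rw [mem_Icc] at hk
    apply Tendsto.const_mul
    apply Tendsto.sub
    · exact scaled_tendsto (f := fun N => Chebyshev.theta ((N / k : ℕ) : ℝ))
        (theta_div_tendsto k hk.1) (J + K) (by omega)
    · exact scaled_tendsto (f := fun N => Chebyshev.theta ((N / (k + 1) : ℕ) : ℝ))
        (theta_div_tendsto (k + 1) (by omega)) (J + K) (by omega)
  have hr : Tendsto (fun m : ℕ => ((K : ℝ) ^ 2 * (Real.log 2 +
      Chebyshev.psi (((J + K) * m : ℕ) : ℝ) + Real.log (d (J * m)))) / (m : ℝ)) atTop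
      (𝓝 ((K : ℝ) ^ 2 * (0 + 1 * ((J + K : ℕ) : ℝ) + -(c * (J : ℝ))))) := by
    have h1 := scaled_tendsto (f := fun N => Chebyshev.psi ((N : ℕ) : ℝ)) psi_nat_tendsto (J + K)
      (by omega)
    have h2 := (scaled_tendsto (f := fun N => -Real.log (d N)) h J hJ).neg
    have h3 : Tendsto (fun N : ℕ => Real.log 2 / (N : ℝ)) atTop (𝓝 0) :=
      tendsto_const_nhds.div_atTop tendsto_natCast_atTop_atTop
    have h4 := ((h3.add h1).add h2).const_mul ((K : ℝ) ^ 2)
    refine h4.congr fun m => ?_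
    ring
  have hle := le_of_tendsto_of_tendsto hl hr hfin
  -- divide by `K² (J + K)`
  have hJK : (0 : ℝ) < J + K := by positivity
  have hleft : ∑ k ∈ Icc 1 k0, ((K : ℝ) ^ 2 / 2 ^ k - K) *
        (1 / (k : ℝ) * ((J + K : ℕ) : ℝ) - 1 / ((k + 1 : ℕ) : ℝ) * ((J + K : ℕ) : ℝ)) =
      ((K : ℝ) ^ 2 * (J + K)) * ∑ k ∈ Icc 1 k0, ((1 : ℝ) / 2 ^ k - 1 / K) * (1 / k - 1 / (k + 1)) := by
    rw [mul_sum]
    refine sum_congr rfl fun k _ => ?_
    push_cast
    field_simp
  rw [hleft] at hle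
  have hright : (K : ℝ) ^ 2 * (0 + 1 * ((J + K : ℕ) : ℝ) + -(c * (J : ℝ))) =
      ((K : ℝ) ^ 2 * (J + K)) * (1 - c * J / (J + K)) := by
    push_cast
    field_simp
    ring
  rw [hright] at hle
  exact le_of_mul_le_mul_left hle (by positivity)

theorem sum_series (k0 : ℕ) : ∑ k ∈ Icc 1 k0, (1 : ℝ) / 2 ^ k * (1 / k - 1 / (k + 1)) =
    ∑ k ∈ range k0, (1 : ℝ) / 2 ^ (k + 1) * (1 / ((k + 1 : ℕ) : ℝ) - 1 / ((k + 2 : ℕ) : ℝ)) := by
  induction k0 with
  | zero => simp
  | succ n ih =>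
    rw [sum_Icc_succ_top (by omega), sum_range_succ, ih]
    congr 1
    push_cast
    ring

theorem series_hasSum : HasSum (fun k : ℕ => (1 : ℝ) / 2 ^ (k + 1) *
    (1 / ((k + 1 : ℕ) : ℝ) - 1 / ((k + 2 : ℕ) : ℝ))) (1 - Real.log 2) := by
  have h1 := Real.hasSum_pow_div_log_of_abs_lt_one (x := 1 / 2) (by
    rw [abs_of_pos (by norm_num)]
    norm_num)
  have e1 : -Real.log (1 - 1 / 2) = Real.log 2 := by
    have : (1 : ℝ) - 1 / 2 = 2⁻¹ := by norm_num
    rw [this, Real.log_inv, neg_neg]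
  rw [e1] at h1
  -- the shifted series
  have h2 : HasSum (fun k : ℕ => ((1 : ℝ) / 2) ^ (k + 1 + 1) / ((k + 1 : ℕ) + 1)) (Real.log 2 - 1 / 2) := by
    have h3 := (hasSum_nat_add_iff' 1).2 h1
    simp only [sum_range_one, Nat.cast_zero, zero_add, pow_one, div_one] at h3
    exact_mod_cast h3
  have h3 := h1.sub (h2.mul_left 2)
  have e : Real.log 2 - 2 * (Real.log 2 - 1 / 2) = 1 - Real.log 2 := by ring
  rw [e] at h3
  refine h3.congr_fun fun k => ?_
  have h4 : ((k : ℝ) + 1) ≠ 0 := by positivity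
  have h5 : ((k : ℝ) + 2) ≠ 0 := by positivity
  push_cast
  have h6 : ((k : ℝ) + 1 + 1) = k + 2 := by ring
  rw [h6, one_div_pow, one_div_pow, pow_succ, pow_succ]
  field_simp
  ring

/-- If `-(1/N) log d(N)` has a limit, the limit is at most `log 2`. -/
theorem limit_le (hd : Dist d) {c : ℝ}
    (h : Tendsto (fun N : ℕ => -Real.log (d N) / N) atTop (𝓝 c)) : c ≤ Real.log 2 := by
  rcases le_or_gt c 0 with hc | hc
  · exact hc.trans (Real.log_nonneg (by norm_num))
  -- `J → ∞`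
  have h1 : ∀ K k0 : ℕ, 1 ≤ K →
      ∑ k ∈ Icc 1 k0, ((1 : ℝ) / 2 ^ k - 1 / K) * (1 / k - 1 / (k + 1)) ≤ 1 - c := by
    intro K k0 hK
    have h2 : Tendsto (fun J : ℕ => 1 - c * J / ((J : ℝ) + K)) atTop (𝓝 (1 - c)) := by
      have h3 : Tendsto (fun J : ℕ => (J : ℝ) / ((J : ℝ) + K)) atTop (𝓝 1) := by
        have := tendsto_natCast_div_add_atTop (𝕜 := ℝ) (K : ℝ)
        exact this
      have h4 := (h3.const_mul c).const_sub 1
      rw [mul_one] at h4
      refine h4.congr fun J => ?_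
      ring
    refine ge_of_tendsto h2 ?_
    filter_upwards [eventually_ge_atTop 1] with J hJ
    exact limit_ineq hd hc h J K k0 hJ hK
  -- `K → ∞`
  have h2 : ∀ k0 : ℕ, ∑ k ∈ Icc 1 k0, (1 : ℝ) / 2 ^ k * (1 / k - 1 / (k + 1)) ≤ 1 - c := by
    intro k0
    have h3 : Tendsto (fun K : ℕ => ∑ k ∈ Icc 1 k0, ((1 : ℝ) / 2 ^ k - 1 / (K : ℝ)) *
        (1 / k - 1 / (k + 1))) atTop
        (𝓝 (∑ k ∈ Icc 1 k0, ((1 : ℝ) / 2 ^ k - 0) * (1 / k - 1 / (k + 1)))) := by
      apply tendsto_finsetSum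
      intro k _
      apply Tendsto.mul_const
      apply Tendsto.const_sub
      exact tendsto_one_div_atTop_nhds_zero_nat
    simp only [sub_zero] at h3
    refine le_of_tendsto h3 ?_
    filter_upwards [eventually_ge_atTop 1] with K hK
    exact h1 K k0 hK
  -- `k0 → ∞`
  have h3 := series_hasSum.tendsto_sum_nat
  have h4 : 1 - Real.log 2 ≤ 1 - c := by
    refine le_of_tendsto' h3 fun k0 => ?_
    rw [← sum_series]
    exact h2 k0
  linarith

end Pool.Agent.H15D
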